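import Mathlib

/-!
# The universal graph that separates partitions
-/

set_option autoImplicit false

namespace Q127.Lam

open Finset

section
variable {A : Type} [Fintype A] {Q : A → Type} [∀ l, Fintype (Q l)]
  (kap : ∀ l, Q l → ℕ) {P : Type} [Fintype P] (c : P → ℕ) (M : ℕ)

open Classical in
/-- Colours of class `m` used on vertices of type `t`. -/
noncomputable def used {V : Type} [Fintype V] (tau : V → ∀ l, Q l) (f : V → P × Fin M)
    (t : ∀ l, Q l) (m : P) : Finset (Fin M) :=
  univ.filter fun b => ∃ v, tau v = t ∧ f v = (m, b)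

open Classical in
/-- The potential of a colouring. -/
noncomputable def pot {V : Type} [Fintype V] (tau : V → ∀ l, Q l) (f : V → P × Fin M) : ℕ :=
  ∑ t : (∀ l, Q l), ∑ m : P, min (c m) (used M tau f t m).card

open Classical in
/-- There is a degenerate typed graph with lists all whose colourings have potential at
least `j`. -/
def Good (j : ℕ) : Prop :=
  ∃ (V : Type) (_ : Fintype V) (G : SimpleGraph V) (r : V → ℕ) (tau : V → ∀ l, Q l)
    (L : V → Finset (P × Fin M)),
    (∀ u v, G.Adj u v → r u ≠ r v) ∧ (∀ v, r v < j) ∧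
    (∀ v l, (univ.filter fun u => G.Adj u v ∧ r u < r v ∧ tau u l = tau v l).card
      < kap l (tau v l)) ∧
    (∀ v m, ((L v).filter fun x => x.1 = m).card = c m) ∧
    ∀ f : V → P × Fin M, (∀ v, f v ∈ L v) → (∀ u v, G.Adj u v → f u ≠ f v) →
      j ≤ pot c M tau f

theorem good_zero : Good kap c M 0 := by
  refine ⟨Empty, inferInstance, ⊥, fun v => v.elim, fun v => v.elim, fun v => v.elim,
    fun u => u.elim, fun u => u.elim, fun u => u.elim, fun u => u.elim, ?_⟩
  intro f _ _
  exact Nat.zero_le _

open Classical in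
theorem good_succ [∀ l, Nonempty (Q l)] (hM : ∀ m, 2 * c m ≤ M)
    (H : ∀ l, ∀ g : P → Q l, ∃ i, ∑ m ∈ univ.filter (fun m => g m = i), c m < kap l i)
    (j : ℕ) (h : Good kap c M j) : Good kap c M (j + 1) := by
  obtain ⟨V, _, G, r, tau, L, hadj, hr, hdeg, hL, hpot⟩ := h
  -- the new vertices
  let X : Type := {x : (∀ l, Q l) × (P → Finset (Fin M)) × Finset V //
    (∀ m, (x.2.1 m).card = c m) ∧
      ∀ l, (x.2.2.filter (fun u => tau u l = x.1 l)).card < kap l (x.1 l)}
  let G' : SimpleGraph (V ⊕ X) :=
    { Adj := fun a b => match a, b with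
        | Sum.inl u, Sum.inl v => G.Adj u v
        | Sum.inl u, Sum.inr x => u ∈ x.1.2.2
        | Sum.inr x, Sum.inl u => u ∈ x.1.2.2
        | Sum.inr _, Sum.inr _ => False
      symm := ⟨by
        rintro (u | x) (v | y) h
        · exact G.adj_symm h
        · exact h
        · exact h
        · exact h⟩
      loopless := ⟨by
        rintro (u | x) h
        · exact G.irrefl h
        · exact h⟩ }
  let r' : V ⊕ X → ℕ := Sum.elim r (fun _ => j)
  let tau' : V ⊕ X → ∀ l, Q l := Sum.elim tau (fun x => x.1.1)
  let L' : V ⊕ X → Finset (P × Fin M) :=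
    Sum.elim L (fun x => univ.filter (fun y => y.2 ∈ x.1.2.1 y.1))
  refine ⟨V ⊕ X, inferInstance, G', r', tau', L', ?_, ?_, ?_, ?_, ?_⟩
  · rintro (u | x) (v | y) h
    · exact hadj u v h
    · exact (hr u).ne
    · exact (hr v).ne'
    · exact h.elim
  · rintro (u | x)
    · exact Nat.lt_succ_of_lt (hr u)
    · exact Nat.lt_succ_self j
  · rintro (v | x) l
    · refine lt_of_le_of_lt ?_ (hdeg v l)
      refine le_trans (card_le_card (t := (univ.filter fun u => G.Adj u v ∧ r u < r v ∧
        tau u l = tau v l).image Sum.inl) ?_) card_image_le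
      rintro (u | y) hu
      · simp only [mem_filter, mem_univ, true_and] at hu
        exact mem_image_of_mem _ (mem_filter.mpr ⟨mem_univ _, hu⟩)
      · exfalso
        simp only [mem_filter, mem_univ, true_and] at hu
        exact absurd hu.2.1 (not_lt.mpr (hr v).le)
    · refine lt_of_le_of_lt ?_ (x.2.2 l)
      refine le_trans (card_le_card (t := (x.1.2.2.filter fun u => tau u l = x.1.1 l).image
        Sum.inl) ?_) card_image_le
      rintro (u | y) hu
      · simp only [mem_filter, mem_univ, true_and] at hu
        exact mem_image_of_mem _ (mem_filter.mpr ⟨hu.1, hu.2.2⟩)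
      · exfalso
        simp only [mem_filter, mem_univ, true_and] at hu
        exact hu.1
  · rintro (v | x) m
    · exact hL v m
    · have h1 : ((L' (Sum.inr x)).filter fun y => y.1 = m)
          = (x.1.2.1 m).image (fun b => (m, b)) := by
        ext ⟨m', b⟩
        simp only [L', Sum.elim_inr, mem_filter, mem_univ, true_and, mem_image, Prod.mk.injEq]
        constructor
        · rintro ⟨h1, h2⟩
          subst h2
          exact ⟨b, h1, rfl, rfl⟩
        · rintro ⟨b', hb', h1, h2⟩
          subst h1; subst h2
          exact ⟨hb', rfl⟩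
      rw [h1, card_image_of_injective _ (fun b b' h => (Prod.mk.injEq _ _ _ _ ▸ h).2)]
      exact x.2.1 m
  · intro f hf hprop
    have hj : j ≤ pot c M tau (fun v => f (Sum.inl v)) :=
      hpot _ (fun v => hf (Sum.inl v)) (fun u v huv => hprop (Sum.inl u) (Sum.inl v) huv)
    set U : (∀ l, Q l) → P → Finset (Fin M) := used M tau (fun v => f (Sum.inl v)) with hU
    have hsub : ∀ t m, U t m ⊆ used M tau' f t m := by
      intro t m b hb
      simp only [hU, used, mem_filter, mem_univ, true_and] at hb ⊢
      obtain ⟨v, hv, hfv⟩ := hb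
      exact ⟨Sum.inl v, hv, hfv⟩
    -- full classes
    let Full : P → Prop := fun m => ∃ t, c m ≤ (U t m).card
    let rho : P → ∀ l, Q l := fun m =>
      if h : Full m then Classical.choose h else fun l => Classical.arbitrary (Q l)
    have hrho : ∀ m, Full m → c m ≤ (U (rho m) m).card := by
      intro m hm
      have : rho m = Classical.choose hm := dif_pos hm
      rw [this]
      exact Classical.choose_spec hm
    choose i hi using fun l => H l (fun m => rho m l)
    have hell : ∀ m, ∃ s : Finset (Fin M), s.card = c m ∧ (Full m → s ⊆ U (rho m) m) ∧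
        (¬ Full m → Disjoint s (U i m)) := by
      intro m
      by_cases hm : Full m
      · obtain ⟨s, hs, hsc⟩ := exists_subset_card_eq (hrho m hm)
        exact ⟨s, hsc, fun _ => hs, fun h => absurd hm h⟩
      · have h1 : (U i m).card < c m := by
          by_contra hcon
          exact hm ⟨i, not_lt.mp hcon⟩
        have h2 : c m ≤ ((U i m)ᶜ).card := by
          rw [card_compl, Fintype.card_fin]
          have := hM m
          omega
        obtain ⟨s, hs, hsc⟩ := exists_subset_card_eq h2
        exact ⟨s, hsc, fun h => absurd h hm, fun _ => by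
          rw [disjoint_left]
          intro b hb hb'
          exact (mem_compl.mp (hs hb)) hb'⟩
    choose ell hellc hellF hellN using hell
    -- killers
    let Y : Type := {y : P × Fin M // Full y.1 ∧ y.2 ∈ ell y.1}
    have hkill : ∀ y : Y, ∃ v : V, tau v = rho y.1.1 ∧ f (Sum.inl v) = y.1 := by
      intro y
      have := hellF y.1.1 y.2.1 y.2.2
      simp only [hU, used, mem_filter, mem_univ, true_and] at this
      exact this
    choose kil hkil1 hkil2 using hkill
    let N : Finset V := univ.image kil
    have hN : ∀ l, (N.filter (fun u => tau u l = i l)).card < kap l (i l) := by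
      intro l
      refine lt_of_le_of_lt ?_ (hi l)
      have h1 : (N.filter (fun u => tau u l = i l)) ⊆
          ((univ : Finset Y).filter (fun y => rho y.1.1 l = i l)).image kil := by
        intro u hu
        rw [mem_filter, mem_image] at hu
        obtain ⟨⟨y, _, hy⟩, h2⟩ := hu
        refine mem_image.mpr ⟨y, mem_filter.mpr ⟨mem_univ _, ?_⟩, hy⟩
        rw [← hkil1 y, hy]
        exact h2
      refine (card_le_card h1).trans (card_image_le.trans ?_)
      have h3 : ((univ : Finset Y).filter (fun y => rho y.1.1 l = i l)).card ≤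
          ((univ.filter (fun m => rho m l = i l)).sigma (fun m => ell m)).card := by
        refine card_le_card_of_injOn (fun y => (⟨y.1.1, y.1.2⟩ : (_ : P) × Fin M)) ?_ ?_
        · intro y hy
          have hy' := (mem_filter.mp hy).2
          exact mem_sigma.mpr ⟨mem_filter.mpr ⟨mem_univ _, hy'⟩, y.2.2⟩
        · intro y _ z _ hyz
          simp only [Sigma.mk.injEq, heq_eq_eq] at hyz
          exact Subtype.ext (Prod.ext hyz.1 hyz.2)
      refine h3.trans ?_
      rw [card_sigma]
      exact le_of_eq (sum_congr rfl (fun m _ => hellc m))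
    let x : X := ⟨(i, ell, N), hellc, hN⟩
    have hfx : (f (Sum.inr x)).2 ∈ ell (f (Sum.inr x)).1 := by
      have := hf (Sum.inr x)
      simp only [L', Sum.elim_inr, mem_filter, mem_univ, true_and] at this
      exact this
    set m0 := (f (Sum.inr x)).1 with hm0
    have hnF : ¬ Full m0 := by
      intro hF
      have hadj' : G'.Adj (Sum.inl (kil ⟨f (Sum.inr x), hF, hfx⟩)) (Sum.inr x) :=
        mem_image_of_mem kil (mem_univ _)
      exact hprop _ _ hadj' (hkil2 ⟨f (Sum.inr x), hF, hfx⟩)
    have hnot : (f (Sum.inr x)).2 ∉ U i m0 := fun hb =>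
      (disjoint_left.mp (hellN m0 hnF)) hfx hb
    have hin : (f (Sum.inr x)).2 ∈ used M tau' f i m0 := by
      simp only [used, mem_filter, mem_univ, true_and]
      exact ⟨Sum.inr x, rfl, rfl⟩
    have hlt : (U i m0).card < (used M tau' f i m0).card :=
      card_lt_card ⟨hsub i m0, fun hcon => hnot (hcon hin)⟩
    have hlt2 : (U i m0).card < c m0 := by
      by_contra hcon
      exact hnF ⟨i, not_lt.mp hcon⟩
    have key : pot c M tau (fun v => f (Sum.inl v)) < pot c M tau' f := by
      refine sum_lt_sum (fun t _ => sum_le_sum fun m _ => ?_) ⟨i, mem_univ _, ?_⟩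
      · exact min_le_min le_rfl (card_le_card (hsub t m))
      · refine sum_lt_sum (fun m _ => min_le_min le_rfl (card_le_card (hsub i m)))
          ⟨m0, mem_univ _, ?_⟩
        change min (c m0) (U i m0).card < _
        rw [min_eq_right hlt2.le]
        exact lt_min hlt2 hlt
    omega

open Classical in
/-- The core statement: a typed graph that is degenerate in every coordinate and not colourable
from some lists with `c m` colours in class `m`. -/
theorem exists_graph [∀ l, Nonempty (Q l)] (hM : ∀ m, 2 * c m ≤ M)
    (H : ∀ l, ∀ g : P → Q l, ∃ i, ∑ m ∈ univ.filter (fun m => g m = i), c m < kap l i) :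
    ∃ (V : Type) (_ : Fintype V) (G : SimpleGraph V) (r : V → ℕ) (tau : V → ∀ l, Q l)
    (L : V → Finset (P × Fin M)),
    (∀ u v, G.Adj u v → r u ≠ r v) ∧
    (∀ v l, (univ.filter fun u => G.Adj u v ∧ r u < r v ∧ tau u l = tau v l).card
      < kap l (tau v l)) ∧
    (∀ v m, ((L v).filter fun x => x.1 = m).card = c m) ∧
    ¬ ∃ f : V → P × Fin M, (∀ v, f v ∈ L v) ∧ (∀ u v, G.Adj u v → f u ≠ f v) := by
  have hall : ∀ j, Good kap c M j := by
    intro j
    induction j with
    | zero => exact good_zero kap c M
    | succ j ih => exact good_succ kap c M hM H j ih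
  obtain ⟨V, hV, G, r, tau, L, hadj, _, hdeg, hL, hpot⟩ :=
    hall ((∑ _t : (∀ l, Q l), ∑ m : P, c m) + 1)
  refine ⟨V, hV, G, r, tau, L, hadj, hdeg, hL, ?_⟩
  rintro ⟨f, hf, hprop⟩
  have h1 := hpot f hf hprop
  have h2 : pot c M tau f ≤ ∑ _t : (∀ l, Q l), ∑ m : P, c m :=
    sum_le_sum fun t _ => sum_le_sum fun m _ => min_le_left _ _
  omega

end

end Q127.Lam
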