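import Mathlib

/-!
# Partitions, their order and lambda-choosability: definitions

A partition of a positive integer is represented by the nonempty multiset of its parts, all of
them positive; the integer is the sum of the multiset.
-/

set_option autoImplicit false

namespace Q127.Lam

/-- `lam` is a partition of a positive integer (namely of `lam.sum`): a nonempty finite multiset
of positive integers. -/
def IsPartition (lam : Multiset ℕ) : Prop :=
  lam ≠ 0 ∧ ∀ k ∈ lam, 0 < k

/-- `nu` arises from `mu` by replacing one part `p` of `mu` by a partition of `p`. -/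
def ReplaceOne (mu nu : Multiset ℕ) : Prop :=
  ∃ (rest parts : Multiset ℕ), IsPartition parts ∧ mu = parts.sum ::ₘ rest ∧ nu = parts + rest

/-- `nu` is a refinement of `mu`: it arises from `mu` by repeatedly replacing one part by a
partition of that part. -/
def IsRefinement (nu mu : Multiset ℕ) : Prop :=
  Relation.ReflTransGen ReplaceOne mu nu

/-- The order on partitions: `lam ≤ lam'` if, for an enumeration `k_1, …, k_q` of the parts of
`lam`, there are integers `d_1, …, d_q ≥ 0` such that `lam'` is a refinement of
`{k_1 + d_1, …, k_q + d_q}`. -/
def Below (lam lam' : Multiset ℕ) : Prop :=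
  ∃ (q : ℕ) (k d : Fin q → ℕ), lam = Finset.univ.val.map k ∧
    IsRefinement lam' (Finset.univ.val.map fun i => k i + d i)

/-- Two partitions are incomparable if neither is below the other. -/
def Incomparable (lam lam' : Multiset ℕ) : Prop :=
  ¬ Below lam lam' ∧ ¬ Below lam' lam

/-- `L` is a `lam`-assignment (for the partition `lam = {k_1, …, k_q}` of `k`): every list has
exactly `k` colours and the set of all colours used in the lists splits into pairwise disjoint
sets `D_1, …, D_q` such that every list has exactly `k_i` colours in `D_i`. -/
def IsAssignment {V C : Type} (lam : Multiset ℕ) (L : V → Finset C) : Prop :=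
  (∀ v, (L v).card = lam.sum) ∧
    ∃ (q : ℕ) (k : Fin q → ℕ) (D : Fin q → Set C), lam = Finset.univ.val.map k ∧
      (∀ i j, i ≠ j → Disjoint (D i) (D j)) ∧ (⋃ i, D i) = (⋃ v, (L v : Set C)) ∧
      ∀ v i, ((L v : Set C) ∩ D i).ncard = k i

/-- `G` is `lam`-choosable: for every `lam`-assignment `L` it has a proper colouring that gives
each vertex a colour of its list. -/
def Choosable {V : Type} (G : SimpleGraph V) (lam : Multiset ℕ) : Prop :=
  ∀ (C : Type) (L : V → Finset C), IsAssignment lam L →
    ∃ f : V → C, (∀ v, f v ∈ L v) ∧ ∀ u v, G.Adj u v → f u ≠ f v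

end Q127.Lam
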