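import Pool.Agent.Q127.Lam.Defs
import Pool.Agent.Q127.Lam.Core

/-!
# Separating antichains of partitions by lambda-choosability
-/

set_option autoImplicit false

namespace Q127.Lam

open Finset

theorem replaceOne_add {mu nu : Multiset ℕ} (t : Multiset ℕ) (h : ReplaceOne mu nu) :
    ReplaceOne (mu + t) (nu + t) := by
  obtain ⟨rest, parts, hp, h1, h2⟩ := h
  refine ⟨rest + t, parts, hp, ?_, ?_⟩
  · rw [h1, Multiset.cons_add]
  · rw [h2, add_assoc]

theorem refine_sum {ι : Type} [DecidableEq ι] (parts : ι → Multiset ℕ)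
    (hparts : ∀ i, IsPartition (parts i)) (F : Finset ι) (rest : Multiset ℕ) :
    Relation.ReflTransGen ReplaceOne (F.val.map (fun i => (parts i).sum) + rest)
      (∑ i ∈ F, parts i + rest) := by
  induction F using Finset.induction_on generalizing rest with
  | empty =>
    simp only [Finset.empty_val, Multiset.map_zero, Finset.sum_empty]
    exact Relation.ReflTransGen.refl
  | insert a F ha ih =>
    rw [Finset.sum_insert ha, Finset.insert_val_of_notMem ha, Multiset.map_cons]
    have h1 : ReplaceOne (((parts a).sum ::ₘ F.val.map fun i => (parts i).sum) + rest)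
        (F.val.map (fun i => (parts i).sum) + (parts a + rest)) := by
      refine ⟨F.val.map (fun i => (parts i).sum) + rest, parts a, hparts a, ?_, ?_⟩
      · rw [Multiset.cons_add]
      · abel
    have h2 := ih (parts a + rest)
    have h3 : ∑ i ∈ F, parts i + (parts a + rest) = parts a + ∑ i ∈ F, parts i + rest := by
      abel
    rw [h3] at h2
    exact Relation.ReflTransGen.head h1 h2

theorem below_of_map {q p : ℕ} (kap : Fin q → ℕ) (c : Fin p → ℕ) (hk : ∀ i, 0 < kap i)
    (hc : ∀ m, 0 < c m) (g : Fin p → Fin q)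
    (hg : ∀ i, kap i ≤ ∑ m ∈ univ.filter (fun m => g m = i), c m) :
    Below (univ.val.map kap) (univ.val.map c) := by
  classical
  refine ⟨q, kap, fun i => (∑ m ∈ univ.filter (fun m => g m = i), c m) - kap i, rfl, ?_⟩
  unfold IsRefinement
  let parts : Fin q → Multiset ℕ := fun i => ∑ m ∈ univ.filter (fun m => g m = i), {c m}
  have hsum : ∀ i, (parts i).sum = ∑ m ∈ univ.filter (fun m => g m = i), c m := by
    intro i
    simp only [parts]
    rw [Multiset.sum_sum]
    exact sum_congr rfl fun m _ => Multiset.sum_singleton _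
  have h1 : (univ.val.map fun i => kap i + ((∑ m ∈ univ.filter (fun m => g m = i), c m) - kap i))
      = univ.val.map (fun i => (parts i).sum) + 0 := by
    rw [add_zero]
    refine Multiset.map_congr rfl fun i _ => ?_
    rw [hsum i]
    have := hg i
    omega
  have h2 : univ.val.map c = ∑ i ∈ (univ : Finset (Fin q)), parts i + 0 := by
    rw [add_zero]
    simp only [parts]
    rw [Finset.sum_fiberwise (s := univ) (g := g) (f := fun m => ({c m} : Multiset ℕ))]
    rw [Finset.sum_eq_multiset_sum]
    have h3 : (univ.val.map fun m => ({c m} : Multiset ℕ))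
        = (univ.val.map c).map (fun a => ({a} : Multiset ℕ)) := by
      rw [Multiset.map_map]
      rfl
    rw [h3, Multiset.sum_map_singleton]
  rw [h1, h2]
  refine refine_sum parts (fun i => ⟨?_, ?_⟩) univ 0
  · intro h0
    have := hg i
    rw [← hsum i, h0] at this
    simp only [Multiset.sum_zero] at this
    have := hk i
    omega
  · intro k hk'
    simp only [parts] at hk'
    rw [Multiset.mem_sum] at hk'
    obtain ⟨m, _, hm⟩ := hk'
    rw [Multiset.mem_singleton] at hm
    rw [hm]
    exact hc m

theorem exists_equiv {ι ι' : Type} [Fintype ι] [Fintype ι'] (f : ι → ℕ) (g : ι' → ℕ)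
    (h : (univ : Finset ι).val.map f = (univ : Finset ι').val.map g) :
    ∃ e : ι ≃ ι', ∀ i, g (e i) = f i := by
  classical
  have hcard : ∀ x : ℕ, Fintype.card {i // f i = x} = Fintype.card {i // g i = x} := by
    intro x
    have h1 : Multiset.count x ((univ : Finset ι).val.map f)
        = Multiset.count x ((univ : Finset ι').val.map g) := by rw [h]
    rw [Multiset.count_map, Multiset.count_map] at h1
    rw [Fintype.card_subtype, Fintype.card_subtype, Finset.card_def, Finset.card_def,
      Finset.filter_val, Finset.filter_val]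
    simpa [eq_comm] using h1
  let e : ι ≃ ι' := (Equiv.sigmaFiberEquiv f).symm.trans
    ((Equiv.sigmaCongrRight (fun x => Fintype.equivOfCardEq (hcard x))).trans
      (Equiv.sigmaFiberEquiv g))
  refine ⟨e, fun i => ?_⟩
  have : ∀ (x : ℕ) (y : {i // g i = x}), g (Equiv.sigmaFiberEquiv g ⟨x, y⟩) = x := by
    intro x y
    exact y.2
  change g (Equiv.sigmaFiberEquiv g ⟨f i, _⟩) = f i
  exact this _ _

/-- Degenerate typed graphs are choosable. -/
theorem choosable_of_degenerate {V : Type} [Fintype V] (G : SimpleGraph V) (r : V → ℕ) {q : ℕ}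
    (kap : Fin q → ℕ) (hk : ∀ i, 0 < kap i) (tau : V → Fin q)
    (hadj : ∀ u v, G.Adj u v → r u ≠ r v)
    (hdeg : ∀ v, {u | G.Adj u v ∧ r u < r v ∧ tau u = tau v}.ncard < kap (tau v)) :
    Choosable G (univ.val.map kap) := by
  classical
  intro C L hL
  obtain ⟨hcard, q', k, D, hkk, hdisj, hU, hcount⟩ := hL
  obtain ⟨e, he⟩ := exists_equiv kap k hkk
  have hne : ∀ v, (L v).Nonempty := by
    intro v
    rw [← Finset.card_pos, hcard v]
    refine lt_of_lt_of_le (hk (tau v)) ?_
    exact Finset.single_le_sum (f := kap) (fun i _ => Nat.zero_le _) (mem_univ (tau v))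
  have claim : ∀ n : ℕ, ∃ f : V → C, (∀ v, f v ∈ L v) ∧ ∀ v, r v < n → f v ∈ D (e (tau v)) ∧
      ∀ u, G.Adj u v → r u < r v → tau u = tau v → f u ≠ f v := by
    intro n
    induction n with
    | zero =>
      exact ⟨fun v => (hne v).choose, fun v => (hne v).choose_spec, fun v hv =>
        absurd hv (Nat.not_lt_zero _)⟩
    | succ n ih =>
      obtain ⟨f, hf, hfn⟩ := ih
      have hchoice : ∀ v, ∃ x, x ∈ L v ∧ x ∈ D (e (tau v)) ∧
          ∀ u, G.Adj u v → r u < r v → tau u = tau v → f u ≠ x := by
        intro v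
        have h1 : (f '' {u | G.Adj u v ∧ r u < r v ∧ tau u = tau v}).ncard <
            ((L v : Set C) ∩ D (e (tau v))).ncard := by
          refine lt_of_le_of_lt (Set.ncard_image_le (Set.toFinite _)) ?_
          rw [hcount v, he]
          exact hdeg v
        obtain ⟨x, hx1, hx2⟩ := Set.exists_mem_notMem_of_ncard_lt_ncard h1
          ((Set.toFinite _))
        refine ⟨x, hx1.1, hx1.2, fun u h1 h2 h3 h4 => hx2 ⟨u, ⟨h1, h2, h3⟩, h4⟩⟩
      choose g hg1 hg2 hg3 using hchoice
      refine ⟨fun v => if r v = n then g v else f v, ?_, ?_⟩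
      · intro v
        dsimp only
        split_ifs
        · exact hg1 v
        · exact hf v
      · intro v hv
        dsimp only
        by_cases hvn : r v = n
        · rw [if_pos hvn]
          refine ⟨hg2 v, fun u hu1 hu2 hu3 => ?_⟩
          rw [if_neg (by omega)]
          exact hg3 v u hu1 hu2 hu3
        · rw [if_neg hvn]
          have hv' : r v < n := by omega
          refine ⟨(hfn v hv').1, fun u hu1 hu2 hu3 => ?_⟩
          rw [if_neg (by omega)]
          exact (hfn v hv').2 u hu1 hu2 hu3
  obtain ⟨B, hB⟩ : ∃ B, ∀ v, r v < B := by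
    refine ⟨(∑ v, r v) + 1, fun v => Nat.lt_succ_of_le ?_⟩
    exact Finset.single_le_sum (f := r) (fun i _ => Nat.zero_le _) (mem_univ v)
  obtain ⟨f, hf, hfB⟩ := claim B
  have hwl : ∀ u v, G.Adj u v → r u < r v → f u ≠ f v := by
    intro u v huv hlt
    by_cases ht : tau u = tau v
    · exact (hfB v (hB v)).2 u huv hlt ht
    · intro heq
      have hd := hdisj (e (tau u)) (e (tau v)) (fun h => ht (e.injective h))
      exact (Set.disjoint_left.mp hd) (hfB u (hB u)).1 (heq ▸ (hfB v (hB v)).1)
  refine ⟨f, hf, fun u v huv => ?_⟩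
  rcases lt_or_gt_of_ne (hadj u v huv) with h | h
  · exact hwl u v huv h
  · exact (hwl v u huv.symm h).symm

theorem exists_enum (l : Multiset ℕ) : ∃ (n : ℕ) (k : Fin n → ℕ), l = univ.val.map k := by
  induction l using Quotient.inductionOn with
  | h L =>
    refine ⟨L.length, L.get, ?_⟩
    rw [Fin.univ_val_map, List.ofFn_get]
    rfl

theorem separate_one (A : Finset (Multiset ℕ)) (lam' : Multiset ℕ) (hA : ∀ l ∈ A, IsPartition l)
    (h' : IsPartition lam') (h : ∀ l ∈ A, ¬ Below l lam') :
    ∃ (V : Type) (_ : Fintype V) (G : SimpleGraph V), (∀ l ∈ A, Choosable G l) ∧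
      ¬ Choosable G lam' := by
  classical
  choose n k hk using exists_enum
  have hkpos : ∀ l, IsPartition l → ∀ i, 0 < k l i := by
    intro l hl i
    refine hl.2 _ ?_
    have : k l i ∈ univ.val.map (k l) := Multiset.mem_map_of_mem _ (mem_univ_val i)
    rwa [← hk l] at this
  have hne : ∀ l : A, Nonempty (Fin (n l.1)) := by
    intro l
    by_contra hcon
    rw [not_nonempty_iff] at hcon
    refine (hA l.1 l.2).1 ?_
    rw [hk l.1]
    simp
  obtain ⟨V, hV, G, r, tau, L, hadj, hdeg, hL, hno⟩ := exists_graph (A := A)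
    (Q := fun l => Fin (n l.1)) (fun l => k l.1) (k lam') (2 * ∑ m, k lam' m)
    (fun m => by
      have := Finset.single_le_sum (f := k lam') (fun i _ => Nat.zero_le _) (mem_univ m)
      omega)
    (by
      intro l g
      by_contra hcon
      push Not at hcon
      refine h l.1 l.2 ?_
      rw [hk l.1, hk lam']
      exact below_of_map (k l.1) (k lam') (hkpos _ (hA l.1 l.2)) (hkpos _ h') g
        (fun i => le_trans (hcon i) (le_of_eq (by congr))))
  refine ⟨V, hV, G, ?_, ?_⟩
  · intro l hl
    rw [hk l]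
    refine choosable_of_degenerate G r (k l) (hkpos l (hA l hl)) (fun v => tau v ⟨l, hl⟩) hadj ?_
    intro v
    refine lt_of_le_of_lt (le_of_eq ?_) (hdeg v ⟨l, hl⟩)
    rw [← Set.ncard_coe_finset]
    congr 1
    ext u
    simp
  · intro hch
    refine hno (hch _ L ⟨?_, n lam', k lam', fun m => {x | x.1 = m ∧ ∃ v, x ∈ L v}, hk lam',
      ?_, ?_, ?_⟩)
    · intro v
      have h1 : (L v).card = ∑ m, ((L v).filter fun x => x.1 = m).card :=
        Finset.card_eq_sum_card_fiberwise (s := L v)
          (f := fun x : Fin (n lam') × Fin (2 * ∑ m, k lam' m) => x.1) (t := univ)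
          (fun x _ => by simp)
      rw [h1]
      conv_rhs => rw [hk lam']
      refine sum_congr rfl fun m _ => ?_
      rw [← hL v m]
      congr
    · intro i j hij
      rw [Set.disjoint_left]
      rintro x ⟨hx, _⟩ ⟨hx', _⟩
      exact hij (hx.symm.trans hx')
    · ext x
      simp only [Set.mem_iUnion, Set.mem_ofPred_eq, Finset.mem_coe]
      constructor
      · rintro ⟨_, _, h⟩
        exact h
      · intro h
        exact ⟨x.1, rfl, h⟩
    · intro v i
      rw [← hL v i, ← Set.ncard_coe_finset]
      congr 1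
      ext x
      simp only [Set.mem_inter_iff, Finset.mem_coe, Set.mem_ofPred_eq, mem_filter]
      constructor
      · rintro ⟨h1, h2, _⟩
        exact ⟨h1, h2⟩
      · rintro ⟨h1, h2⟩
        exact ⟨h1, h2, v, h1⟩

/-- An assignment on the left part of a disjoint union extends. -/
theorem IsAssignment.comp {V W C : Type} {lam : Multiset ℕ} {L : V → Finset C} (g : W → V)
    (hL : IsAssignment lam L) : IsAssignment lam (fun w => L (g w)) := by
  obtain ⟨h1, q, k, D, h2, h3, h4, h5⟩ := hL
  refine ⟨fun w => h1 (g w), q, k, fun i => D i ∩ ⋃ w, (L (g w) : Set C), h2, ?_, ?_, ?_⟩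
  · intro i j hij
    exact (h3 i j hij).mono Set.inter_subset_left Set.inter_subset_left
  · rw [← Set.iUnion_inter, h4, Set.inter_eq_right]
    refine Set.iUnion_subset fun w => ?_
    exact Set.subset_iUnion (fun v => (L v : Set C)) (g w)
  · intro w i
    rw [← h5 (g w) i]
    congr 1
    ext x
    simp only [Set.mem_inter_iff, Finset.mem_coe, Set.mem_iUnion]
    constructor
    · rintro ⟨h1, h2, _⟩
      exact ⟨h1, h2⟩
    · rintro ⟨h1, h2⟩
      exact ⟨h1, h2, w, h1⟩

theorem choosable_sum {V W : Type} {G : SimpleGraph V} {H : SimpleGraph W} {lam : Multiset ℕ}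
    (hG : Choosable G lam) (hH : Choosable H lam) : Choosable (G ⊕g H) lam := by
  intro C L hL
  obtain ⟨f, hf1, hf2⟩ := hG C (fun v => L (Sum.inl v)) (hL.comp Sum.inl)
  obtain ⟨g, hg1, hg2⟩ := hH C (fun v => L (Sum.inr v)) (hL.comp Sum.inr)
  refine ⟨Sum.elim f g, ?_, ?_⟩
  · rintro (v | w)
    · exact hf1 v
    · exact hg1 w
  · rintro (u | u) (v | v) huv
    · exact hf2 u v (by simpa using huv)
    · simp at huv
    · simp at huv
    · exact hg2 u v (by simpa using huv)

theorem choosable_of_hom {V W : Type} {G : SimpleGraph V} {H : SimpleGraph W} {lam : Multiset ℕ}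
    (g : V → W) (g' : W → V) (hg' : ∀ v, g' (g v) = v) (hg : ∀ u v, G.Adj u v → H.Adj (g u) (g v))
    (hH : Choosable H lam) : Choosable G lam := by
  intro C L hL
  obtain ⟨f, hf1, hf2⟩ := hH C (fun w => L (g' w)) (hL.comp g')
  refine ⟨fun v => f (g v), fun v => ?_, fun u v huv => hf2 _ _ (hg u v huv)⟩
  have := hf1 (g v)
  rwa [hg' v] at this

theorem separate_finite (A : Finset (Multiset ℕ)) (hA : ∀ l ∈ A, IsPartition l)
    (B : Finset (Multiset ℕ)) (hB : ∀ l ∈ B, IsPartition l)
    (h : ∀ l ∈ A, ∀ l' ∈ B, ¬ Below l l') :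
    ∃ (V : Type) (_ : Fintype V) (G : SimpleGraph V), (∀ l ∈ A, Choosable G l) ∧
      ∀ l ∈ B, ¬ Choosable G l := by
  classical
  induction B using Finset.induction_on with
  | empty =>
    refine ⟨Empty, inferInstance, ⊥, ?_, by simp⟩
    intro l _ C L _
    exact ⟨fun v => v.elim, fun v => v.elim, fun v => v.elim⟩
  | insert b B hb ih =>
    obtain ⟨V, hV, G, hG1, hG2⟩ := ih (fun l hl => hB l (mem_insert_of_mem hl))
      (fun l hl l' hl' => h l hl l' (mem_insert_of_mem hl'))
    obtain ⟨W, hW, H, hH1, hH2⟩ := separate_one A b hA (hB b (mem_insert_self _ _))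
      (fun l hl => h l hl b (mem_insert_self _ _))
    refine ⟨V ⊕ W, inferInstance, G ⊕g H, fun l hl => choosable_sum (hG1 l hl) (hH1 l hl), ?_⟩
    intro l hl hch
    rcases mem_insert.mp hl with rfl | hl
    · -- `W` is nonempty
      have hWne : Nonempty W := by
        by_contra hcon
        rw [not_nonempty_iff] at hcon
        exact hH2 fun C L _ => ⟨fun w => (hcon.false w).elim, fun w => (hcon.false w).elim,
          fun w => (hcon.false w).elim⟩
      refine hH2 (choosable_of_hom Sum.inr (Sum.elim (fun _ => hWne.some) id) (fun v => rfl)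
        (fun u v huv => ?_) hch)
      simpa using huv
    · have hVne : Nonempty V := by
        by_contra hcon
        rw [not_nonempty_iff] at hcon
        exact hG2 l hl fun C L _ => ⟨fun w => (hcon.false w).elim, fun w => (hcon.false w).elim,
          fun w => (hcon.false w).elim⟩
      refine hG2 l hl (choosable_of_hom Sum.inl (Sum.elim id (fun _ => hVne.some)) (fun v => rfl)
        (fun u v huv => ?_) hch)
      simpa using huv

theorem coe_eq_map (l : List ℕ) : (l : Multiset ℕ) = (univ : Finset (Fin l.length)).val.map l.get := by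
  rw [Fin.univ_val_map, List.ofFn_get]

theorem below_of_sublist {l l' : List ℕ} (hl : IsPartition (l : Multiset ℕ))
    (hl' : IsPartition (l' : Multiset ℕ)) (h : List.SublistForall₂ (· ≤ ·) l l') :
    Below (l : Multiset ℕ) (l' : Multiset ℕ) := by
  classical
  obtain ⟨l'', h1, h2⟩ := List.sublistForall₂_iff.mp h
  obtain ⟨phi, hphi⟩ := List.sublist_iff_exists_fin_orderEmbedding_get_eq.mp h2
  have hlen : l.length = l''.length := h1.length_eq
  have hle : ∀ i : Fin l.length, l.get i ≤ l''.get (Fin.cast hlen i) := by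
    intro i
    exact h1.get i.2 (hlen ▸ i.2)
  have hpos : 0 < l.length := by
    rw [List.length_pos_iff]
    intro h0
    apply hl.1
    rw [h0]
    rfl
  rw [coe_eq_map l, coe_eq_map l']
  refine below_of_map l.get l'.get (fun i => hl.2 _ (by simp))
    (fun i => hl'.2 _ (by simp))
    (fun m => if h : ∃ i : Fin l.length, phi (Fin.cast hlen i) = m then h.choose else ⟨0, hpos⟩) ?_
  intro i
  refine (hle i).trans ?_
  rw [hphi]
  have hmem : phi (Fin.cast hlen i) ∈ univ.filter (fun m =>
      (if h : ∃ i : Fin l.length, phi (Fin.cast hlen i) = m then h.choose else ⟨0, hpos⟩) = i) := by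
    rw [mem_filter]
    refine ⟨mem_univ _, ?_⟩
    have hex : ∃ i' : Fin l.length, phi (Fin.cast hlen i') = phi (Fin.cast hlen i) := ⟨i, rfl⟩
    rw [dif_pos hex]
    have := hex.choose_spec
    have h3 := phi.injective this
    exact Fin.ext (by simpa using congrArg Fin.val h3)
  exact Finset.single_le_sum (f := l'.get) (fun _ _ => Nat.zero_le _) hmem

theorem finite_antichain (S : Set (Multiset ℕ)) (hS : ∀ l ∈ S, IsPartition l)
    (hinc : ∀ l ∈ S, ∀ m ∈ S, l ≠ m → ¬ Below l m) : S.Finite := by
  classical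
  by_contra hcon
  have hinf : S.Infinite := hcon
  let s : ℕ ↪ S := hinf.natEmbedding S
  have hpwo : (Set.univ : Set ℕ).PartiallyWellOrderedOn (· ≤ ·) := by
    intro f
    obtain ⟨m, n, hmn, h⟩ := (wellQuasiOrdered_le (α := ℕ)) (fun i => (f i).1)
    exact ⟨m, n, hmn, h⟩
  have hH := Set.PartiallyWellOrderedOn.partiallyWellOrderedOn_sublistForall₂ (· ≤ ·) hpwo
  obtain ⟨m, n, hmn, h⟩ := hH (fun i => ⟨(s i).1.toList, fun x _ => Set.mem_univ x⟩)
  have h' : List.SublistForall₂ (· ≤ ·) (s m).1.toList (s n).1.toList := h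
  have h1 := below_of_sublist (by rw [Multiset.coe_toList]; exact hS _ (s m).2)
    (by rw [Multiset.coe_toList]; exact hS _ (s n).2) h'
  rw [Multiset.coe_toList, Multiset.coe_toList] at h1
  exact hinc _ (s m).2 _ (s n).2 (fun h => hmn.ne (s.injective (Subtype.ext h))) h1

/-- The general separation theorem. -/
theorem separate_general (A B : Set (Multiset ℕ)) (hP : ∀ l ∈ A ∪ B, IsPartition l)
    (hAB : Disjoint A B)
    (hinc : ∀ l ∈ A ∪ B, ∀ l' ∈ A ∪ B, l ≠ l' → Incomparable l l') :
    ∃ (n : ℕ) (G : SimpleGraph (Fin n)), (∀ l ∈ A, Choosable G l) ∧ ∀ l ∈ B, ¬ Choosable G l := by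
  classical
  have hfin : (A ∪ B).Finite := finite_antichain _ hP (fun l hl m hm hne => (hinc l hl m hm hne).1)
  have hA : A.Finite := hfin.subset Set.subset_union_left
  have hB : B.Finite := hfin.subset Set.subset_union_right
  obtain ⟨V, hV, G, h1, h2⟩ := separate_finite hA.toFinset
    (fun l hl => hP l (Or.inl (hA.mem_toFinset.mp hl))) hB.toFinset
    (fun l hl => hP l (Or.inr (hB.mem_toFinset.mp hl)))
    (by
      intro l hl l' hl'
      rw [hA.mem_toFinset] at hl
      rw [hB.mem_toFinset] at hl'
      refine (hinc l (Or.inl hl) l' (Or.inr hl') ?_).1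
      rintro rfl
      exact (Set.disjoint_left.mp hAB) hl hl')
  let e := Fintype.equivFin V
  refine ⟨Fintype.card V, G.map e.toEmbedding, fun l hl => ?_, fun l hl hch => ?_⟩
  · refine choosable_of_hom e.symm e (fun v => e.apply_symm_apply v) ?_
      (h1 l (hA.mem_toFinset.mpr hl))
    intro u v huv
    rw [SimpleGraph.map_adj] at huv
    obtain ⟨u', v', h3, rfl, rfl⟩ := huv
    simpa using h3
  · refine h2 l (hB.mem_toFinset.mpr hl) (choosable_of_hom e e.symm
      (fun v => e.symm_apply_apply v) ?_ hch)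
    intro u v huv
    exact (SimpleGraph.map_adj_apply (f := e.toEmbedding)).mpr huv

end Q127.Lam
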